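import Pool.Agent.Y767.GF.Lines

/-!
# The Gyarfas-Sumner property for intersection graphs of lines over every field

The starting result `LinesGyarfasSumner` of this problem treats finite families of lines in `ℝ^d`.
Here the lines lie in `K^d` for an arbitrary field `K`, the family may be infinite, and the binding
function depends only on `d` and on the forest, not on the field.
-/

set_option autoImplicit false

namespace Pool.Agent.Results.MP_27ff1b_co.EveryField

open Pool.Agent.Y767.GF

universe u v

/-- For every dimension `d` and every forest `F` there is a function `f` such that for every field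
`K`, of any characteristic and cardinality, and for every intersection graph `G` of a finite or
infinite family of distinct lines in `K^d` with no induced copy of `F`: if `G` has no clique with
`k + 1` vertices, then `G` can be properly coloured with `f k` colours. For finite graphs this says
`χ(G) ≤ f (ω(G))`. -/
theorem result :
    ∀ d : ℕ, ∀ (m : ℕ) (F : SimpleGraph (Fin m)), F.IsAcyclic →
      ∃ f : ℕ → ℕ, ∀ (K : Type v) [Field K],
        (∀ (V : Type u) (G : SimpleGraph V), IsLineIntersectionGraph K d G →
          ¬ Nonempty (F ↪g G) → ∀ k : ℕ, G.CliqueFree (k + 1) → G.Colorable (f k)) ∧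
        ∀ (V : Type u) [Finite V] (G : SimpleGraph V), IsLineIntersectionGraph K d G →
          ¬ Nonempty (F ↪g G) → G.chromaticNumber ≤ f G.cliqueNum := by
  intro d m F hF
  obtain ⟨f, hf⟩ :=
    forest_colorable.{u} ((d + d * d + 2) * (d + d * d + 2)) m F hF
  refine ⟨f, fun K _ => ⟨fun V G hG hFG k hk => hf V G (lines_no_halfGraph d G hG) hFG k hk,
    fun V _ G hG hFG => ?_⟩⟩
  apply SimpleGraph.Colorable.chromaticNumber_le
  apply hf V G (lines_no_halfGraph d G hG) hFG
  intro s hs
  have := hs.isClique.card_le_cliqueNum
  have h2 := hs.card_eq
  omega

end Pool.Agent.Results.MP_27ff1b_co.EveryField
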